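import Pool.Agent.Run7.h198.CA.Defs

/-!
Piece BASE (helper198): the code for one pair of letters.
-/

set_option autoImplicit false

namespace Pool.Agent.Run7.h459.CA

open Finset
open Pool.Agent.Run7.h198.CA

/-- the places of the letters `a` and `b` -/
def PP {n : ℕ} (t : ℕ) (a b : Fin n) : Finset (Fin n × Fin t) :=
  univ.filter (fun i => i.1 = a ∨ i.1 = b)

/-- the word of a set of places -/
def wd {n t : ℕ} (a b : Fin n) (s : Finset (Fin n × Fin t)) (i : Fin n × Fin t) : Fin n :=
  if i ∈ s then a else if i ∈ PP t a b then b else i.1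

theorem mem_PP {n t : ℕ} (a b : Fin n) (i : Fin n × Fin t) :
    i ∈ PP t a b ↔ (i.1 = a ∨ i.1 = b) := by
  simp [PP]

theorem fiber_card {n t : ℕ} (c : Fin n) :
    (univ.filter fun i : Fin n × Fin t => i.1 = c).card = t := by
  have h : (univ.filter fun i : Fin n × Fin t => i.1 = c) =
      ({c} : Finset (Fin n)) ×ˢ (univ : Finset (Fin t)) := by
    ext ⟨x, y⟩
    simp [eq_comm]
  rw [h, card_product]
  simp

theorem PP_card {n t : ℕ} {a b : Fin n} (hab : a ≠ b) : (PP t a b).card = 2 * t := by
  have h : PP t a b = (univ.filter fun i : Fin n × Fin t => i.1 = a) ∪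
      (univ.filter fun i : Fin n × Fin t => i.1 = b) := by
    ext i
    simp [PP]
  rw [h, card_union_of_disjoint, fiber_card, fiber_card]
  · ring
  · rw [disjoint_left]
    intro i h1 h2
    rw [mem_filter] at h1 h2
    exact hab (h1.2.symm.trans h2.2)

theorem wd_a {n t : ℕ} {a b : Fin n} (hab : a ≠ b) (s : Finset (Fin n × Fin t))
    (i : Fin n × Fin t) : wd a b s i = a ↔ i ∈ s := by
  unfold wd
  by_cases h : i ∈ s
  · simp [h]
  · by_cases h' : i ∈ PP t a b
    · simp [h, h', hab.symm]
    · simp only [h, h', if_false, iff_false]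
      intro h2
      exact h' ((mem_PP a b i).mpr (Or.inl h2))

theorem wd_b {n t : ℕ} {a b : Fin n} (hab : a ≠ b) (s : Finset (Fin n × Fin t))
    (i : Fin n × Fin t) : wd a b s i = b ↔ i ∈ PP t a b \ s := by
  unfold wd
  rw [mem_sdiff]
  by_cases h : i ∈ s
  · simp [h, hab]
  · by_cases h' : i ∈ PP t a b
    · simp [h, h']
    · simp only [h, h', if_false, false_and, iff_false]
      intro h2
      exact h' ((mem_PP a b i).mpr (Or.inr h2))

theorem wd_c {n t : ℕ} {a b c : Fin n} (hca : c ≠ a) (hcb : c ≠ b)
    (s : Finset (Fin n × Fin t)) (hs : s ⊆ PP t a b)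
    (i : Fin n × Fin t) : wd a b s i = c ↔ i.1 = c := by
  unfold wd
  by_cases h : i ∈ s
  · have := (mem_PP a b i).mp (hs h)
    simp only [h, if_true]
    constructor
    · intro h2
      exact absurd h2.symm hca
    · intro h2
      rcases this with h3 | h3
      · exact absurd (h2.symm.trans h3) hca
      · exact absurd (h2.symm.trans h3) hcb
  · by_cases h' : i ∈ PP t a b
    · have := (mem_PP a b i).mp h'
      simp only [h, h', if_true, if_false]
      constructor
      · intro h2
        exact absurd h2.symm hcb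
      · intro h2
        rcases this with h3 | h3
        · exact absurd (h2.symm.trans h3) hca
        · exact absurd (h2.symm.trans h3) hcb
    · simp only [h, h', if_false]

theorem wd_unif {n t : ℕ} {a b : Fin n} (hab : a ≠ b) (s : Finset (Fin n × Fin t))
    (hs : s ∈ (PP t a b).powersetCard t) : Unif t (wd a b s) := by
  rw [mem_powersetCard] at hs
  intro c
  by_cases hca : c = a
  · subst hca
    have h : (univ.filter fun i => wd c b s i = c) = s := by
      ext i
      rw [mem_filter, wd_a hab]
      simp
    rw [h, hs.2]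
  · by_cases hcb : c = b
    · subst hcb
      have h : (univ.filter fun i => wd a c s i = c) = PP t a c \ s := by
        ext i
        rw [mem_filter, wd_b hab]
        simp
      rw [h, card_sdiff_of_subset hs.1, hs.2, PP_card hab]
      omega
    · have h : (univ.filter fun i => wd a b s i = c) =
          (univ.filter fun i : Fin n × Fin t => i.1 = c) := by
        ext i
        rw [mem_filter, mem_filter, wd_c hca hcb s hs.1]
      rw [h, fiber_card]

theorem sdiff_card_comm {α : Type} [DecidableEq α] {s s' : Finset α} (h : s.card = s'.card) :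
    (s \ s').card = (s' \ s).card := by
  have h1 := card_sdiff_add_card_inter s s'
  have h2 := card_sdiff_add_card_inter s' s
  rw [inter_comm s' s] at h2
  omega

theorem wd_sep {n t p : ℕ} {a b : Fin n} (hab : a ≠ b) {s s' : Finset (Fin n × Fin t)}
    (hs : s ∈ (PP t a b).powersetCard t) (hs' : s' ∈ (PP t a b).powersetCard t)
    (h : p ≤ (s \ s').card) : Sep p {(a, b), (b, a)} (wd a b s) (wd a b s') := by
  rw [mem_powersetCard] at hs hs'
  intro e he
  rw [mem_insert, mem_singleton] at he
  rcases he with rfl | rfl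
  · refine h.trans (card_le_card ?_)
    intro i hi
    rw [mem_sdiff] at hi
    rw [mem_filter]
    exact ⟨mem_univ _, (wd_a hab s i).mpr hi.1,
      (wd_b hab s' i).mpr (mem_sdiff.mpr ⟨hs.1 hi.1, hi.2⟩)⟩
  · rw [sdiff_card_comm (hs.2.trans hs'.2.symm)] at h
    refine h.trans (card_le_card ?_)
    intro i hi
    rw [mem_sdiff] at hi
    rw [mem_filter]
    exact ⟨mem_univ _, (wd_b hab s i).mpr (mem_sdiff.mpr ⟨hs'.1 hi.1, hi.2⟩),
      (wd_a hab s' i).mpr hi.1⟩

theorem near_count {α : Type} [DecidableEq α] (P s : Finset α) (t p : ℕ) (hP : P.card = 2 * t)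
    (hs : s ∈ P.powersetCard t) :
    ((P.powersetCard t).filter fun s' => (s \ s').card < p).card ≤
      2 * p * (2 * t + 1) ^ (2 * p) := by
  rw [mem_powersetCard] at hs
  have h1 : ((P.powersetCard t).filter fun s' => (s \ s').card < p).card ≤
      ((range (2 * p)).biUnion fun j => P.powersetCard j).card := by
    refine card_le_card_of_injOn (fun s' => symmDiff s s') ?_ ?_
    · intro s' hs'
      rw [mem_coe, mem_filter, mem_powersetCard] at hs'
      rw [mem_coe, mem_biUnion]
      have h2 : (s' \ s).card < p := by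
        rw [← sdiff_card_comm (hs.2.trans hs'.1.2.symm)]
        exact hs'.2
      have h3 : (symmDiff s s').card ≤ (s \ s').card + (s' \ s).card := by
        show ((s \ s') ⊔ (s' \ s)).card ≤ _
        exact card_union_le _ _
      refine ⟨(symmDiff s s').card, mem_range.mpr (by have := hs'.2; omega), ?_⟩
      rw [mem_powersetCard]
      refine ⟨?_, rfl⟩
      intro i hi
      rw [mem_symmDiff] at hi
      rcases hi with hi | hi
      · exact hs.1 hi.1
      · exact hs'.1.1 hi.1
    · intro x _ y _ hxy
      exact symmDiff_right_injective s hxy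
  refine h1.trans (card_biUnion_le.trans ?_)
  calc ∑ j ∈ range (2 * p), (P.powersetCard j).card
      ≤ ∑ _j ∈ range (2 * p), (2 * t + 1) ^ (2 * p) := by
        refine sum_le_sum fun j hj => ?_
        rw [mem_range] at hj
        rw [card_powersetCard, hP]
        calc (2 * t).choose j ≤ (2 * t) ^ j := Nat.choose_le_pow _ _
          _ ≤ (2 * t + 1) ^ j := Nat.pow_le_pow_left (by omega) _
          _ ≤ (2 * t + 1) ^ (2 * p) := Nat.pow_le_pow_right (by omega) hj.le
    _ = 2 * p * (2 * t + 1) ^ (2 * p) := by
        rw [sum_const, card_range, smul_eq_mul]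

theorem t_BASE : S_MOVE → S_GREEDY → S_BASE := by
  intro hM hG n p t a b hab hp
  have hPc := PP_card (t := t) hab
  obtain ⟨Y, hYX, hcard, hY⟩ := hG (Finset (Fin n × Fin t)) (fun s s' => (s \ s').card < p)
    (2 * p * (2 * t + 1) ^ (2 * p)) ((PP t a b).powersetCard t)
    (fun x _ => by rw [sdiff_self]; exact hp)
    (fun x hx y hy hxy => by
      rw [mem_powersetCard] at hx hy
      rw [← sdiff_card_comm (hx.2.trans hy.2.symm)]
      exact hxy)
    (fun x hx => near_count _ x t p hPc hx)
  refine ⟨Y.card, ?_, ?_⟩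
  · refine hM n p t Y.card {(a, b), (b, a)} (Fin n × Fin t) (by simp) (Y.image (wd a b)) ?_ ?_ ?_
    · rw [card_image_of_injective]
      intro s s' hss
      ext i
      rw [← wd_a hab s i, ← wd_a hab s' i, hss]
    · intro x hx
      obtain ⟨s, hs, rfl⟩ := mem_image.mp hx
      exact wd_unif hab s (hYX hs)
    · intro x hx y hy hxy
      obtain ⟨s, hs, rfl⟩ := mem_image.mp hx
      obtain ⟨s', hs', rfl⟩ := mem_image.mp hy
      have hne : s ≠ s' := fun h => hxy (by rw [h])
      exact wd_sep hab (hYX hs) (hYX hs') (not_lt.mp (hY s hs s' hs' hne))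
  · rw [card_powersetCard, hPc] at hcard
    exact hcard

end Pool.Agent.Run7.h459.CA
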